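import Pool.Agent.H84.SM.Targets2
import Pool.Agent.H3.OD.Targets
import Pool.Agent.H27.LV.Curve

/-!
# MP_70ba79_ag: contact of a solution of a connection with the curve, at one place
-/

set_option autoImplicit false

namespace Pool.Agent.H92.SM

open MvPolynomial SC Pool.Agent.H84.SM
open Pool.Agent.H92.OD
open Pool.Agent.H27.LV (ge poleOrder)

/-! ### Hahn series -/

section HSL

variable {k : Type} [Field k]

theorem geO_const (c : k) : geO 0 (algebraMap k (HS k) c) := by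
  rw [algebraMap_HS]
  exact geO_sg 0 _

/-- first order expansion of a polynomial -/
theorem tay (P : MvPolynomial (Fin 2) k) (a b U : HS k) (ha : geO 0 a) (hb : geO 0 b)
    (hU : geO 0 U) : geO 0 (aeval ![a, b] P) ∧ geO 0 (aeval ![a, b + U] P) ∧
    ∃ R, geO 0 R ∧ aeval ![a, b + U] P - aeval ![a, b] P = U * R := by
  have mul0 : ∀ {x y : HS k}, geO 0 x → geO 0 y → geO 0 (x * y) := fun hx hy => by
    have h := geO_mul hx hy
    rwa [add_zero] at h
  induction P using MvPolynomial.induction_on with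
  | C c =>
    rw [algHom_C, algHom_C]
    exact ⟨geO_const c, geO_const c, 0, geO_zero 0, by rw [sub_self, mul_zero]⟩
  | add p q hp hq =>
    obtain ⟨p1, p2, Rp, p3, p4⟩ := hp
    obtain ⟨q1, q2, Rq, q3, q4⟩ := hq
    rw [map_add, map_add]
    refine ⟨geO_add p1 q1, geO_add p2 q2, Rp + Rq, geO_add p3 q3, ?_⟩
    rw [mul_add, ← p4, ← q4]
    ring
  | mul_X p i hp =>
    obtain ⟨p1, p2, Rp, p3, p4⟩ := hp
    rw [map_mul, map_mul, aeval_X, aeval_X]
    fin_cases i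
    · refine ⟨mul0 p1 ha, mul0 p2 ha, Rp * a, mul0 p3 ha, ?_⟩
      show aeval ![a, b + U] p * a - aeval ![a, b] p * a = U * (Rp * a)
      rw [← sub_mul, p4, mul_assoc]
    · refine ⟨mul0 p1 hb, mul0 p2 (geO_add hb hU), Rp * (b + U) + aeval ![a, b] p,
        geO_add (mul0 p3 (geO_add hb hU)) p1, ?_⟩
      show aeval ![a, b + U] p * (b + U) - aeval ![a, b] p * b = U * (Rp * (b + U) + aeval ![a, b] p)
      linear_combination (b + U) * p4

theorem lat_one {n : ℕ} {y : HS k} (h : Lat 1 y) : Lat n y := fun r hr => by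
  obtain ⟨m, hm⟩ := h r hr
  refine ⟨m * n, ?_⟩
  rw [Nat.cast_one, mul_one] at hm
  rw [hm]
  push_cast
  ring

theorem lat_sub {n : ℕ} {x y : HS k} (hx : Lat n x) (hy : Lat n y) : Lat n (x - y) := fun r hr => by
  by_cases h : cf x r = 0
  · refine hy r fun h' => hr ?_
    rw [cf_sub, h, h', sub_zero]
  · exact hx r h

theorem lat_uu (n : ℕ) : Lat n (uu k) := fun r hr => by
  unfold uu at hr
  rw [cf_sg] at hr
  by_cases h : r = 1
  · exact ⟨n, by rw [h]; push_cast; ring⟩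
  · rw [if_neg h] at hr
    exact absurd rfl hr

theorem geO_uu : geO 1 (uu k) := geO_sg 1 _

end HSL

/-! ### Linear algebra -/

section Lin

variable {k : Type} [Field k]

theorem dual (u0 u1 u2 : Fin 3 → k) (h : dt u0 u1 u2 ≠ 0) :
    ∃ a0 a1 a2 : Fin 3 → k, dp a0 u0 = 1 ∧ dp a1 u0 = 0 ∧ dp a2 u0 = 0 ∧ a1 ≠ 0 ∧ a2 ≠ 0 ∧
    ∀ (L : Type) [Field L] [Algebra k L] (x : Fin 3 → L) (i : Fin 3),
      x i = (∑ j, algebraMap k L (a0 j) * x j) * algebraMap k L (u0 i) +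
        (∑ j, algebraMap k L (a1 j) * x j) * algebraMap k L (u1 i) +
        (∑ j, algebraMap k L (a2 j) * x j) * algebraMap k L (u2 i) := by
  obtain ⟨e, he⟩ : ∃ e, e = (dt u0 u1 u2)⁻¹ := ⟨_, rfl⟩
  have he1 : e * dt u0 u1 u2 = 1 := by rw [he]; exact inv_mul_cancel₀ h
  have hdt : dt u0 u1 u2 = u0 0 * (u1 1 * u2 2 - u1 2 * u2 1) + u0 1 * (u1 2 * u2 0 - u1 0 * u2 2) +
      u0 2 * (u1 0 * u2 1 - u1 1 * u2 0) := by
    simp only [dt, dp, cr, Fin.sum_univ_three]
    rfl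
  rw [hdt] at he1
  refine ⟨![e * (u1 1 * u2 2 - u1 2 * u2 1), e * (u1 2 * u2 0 - u1 0 * u2 2),
      e * (u1 0 * u2 1 - u1 1 * u2 0)], ![e * (u2 1 * u0 2 - u2 2 * u0 1),
      e * (u2 2 * u0 0 - u2 0 * u0 2), e * (u2 0 * u0 1 - u2 1 * u0 0)],
      ![e * (u0 1 * u1 2 - u0 2 * u1 1), e * (u0 2 * u1 0 - u0 0 * u1 2),
      e * (u0 0 * u1 1 - u0 1 * u1 0)], ?_, ?_, ?_, ?_, ?_, ?_⟩
  · simp only [dp, Fin.sum_univ_three]
    show e * (u1 1 * u2 2 - u1 2 * u2 1) * u0 0 + e * (u1 2 * u2 0 - u1 0 * u2 2) * u0 1 +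
      e * (u1 0 * u2 1 - u1 1 * u2 0) * u0 2 = 1
    linear_combination he1
  · simp only [dp, Fin.sum_univ_three]
    show e * (u2 1 * u0 2 - u2 2 * u0 1) * u0 0 + e * (u2 2 * u0 0 - u2 0 * u0 2) * u0 1 +
      e * (u2 0 * u0 1 - u2 1 * u0 0) * u0 2 = 0
    ring
  · simp only [dp, Fin.sum_univ_three]
    show e * (u0 1 * u1 2 - u0 2 * u1 1) * u0 0 + e * (u0 2 * u1 0 - u0 0 * u1 2) * u0 1 +
      e * (u0 0 * u1 1 - u0 1 * u1 0) * u0 2 = 0
    ring
  · intro h0
    have h1 : e * (u2 1 * u0 2 - u2 2 * u0 1) = 0 := congrFun h0 0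
    have h2 : e * (u2 2 * u0 0 - u2 0 * u0 2) = 0 := congrFun h0 1
    have h3 : e * (u2 0 * u0 1 - u2 1 * u0 0) = 0 := congrFun h0 2
    refine one_ne_zero (α := k) ?_
    linear_combination -he1 + u1 0 * h1 + u1 1 * h2 + u1 2 * h3
  · intro h0
    have h1 : e * (u0 1 * u1 2 - u0 2 * u1 1) = 0 := congrFun h0 0
    have h2 : e * (u0 2 * u1 0 - u0 0 * u1 2) = 0 := congrFun h0 1
    have h3 : e * (u0 0 * u1 1 - u0 1 * u1 0) = 0 := congrFun h0 2
    refine one_ne_zero (α := k) ?_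
    linear_combination -he1 + u2 0 * h1 + u2 1 * h2 + u2 2 * h3
  · intro L _ _ x i
    have he2 := congrArg (algebraMap k L) he1
    rw [map_one] at he2
    simp only [map_mul, map_add, map_sub] at he2
    simp only [Fin.sum_univ_three]
    have e1 : ∀ a b c : k, (![a, b, c] : Fin 3 → k) 0 = a := fun _ _ _ => rfl
    have e2 : ∀ a b c : k, (![a, b, c] : Fin 3 → k) 1 = b := fun _ _ _ => rfl
    have e3 : ∀ a b c : k, (![a, b, c] : Fin 3 → k) 2 = c := fun _ _ _ => rfl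
    simp only [e1, e2, e3, map_mul, map_sub]
    fin_cases i
    · show x 0 = _ * algebraMap k L (u0 0) + _ * algebraMap k L (u1 0) + _ * algebraMap k L (u2 0)
      linear_combination -x 0 * he2
    · show x 1 = _ * algebraMap k L (u0 1) + _ * algebraMap k L (u1 1) + _ * algebraMap k L (u2 1)
      linear_combination -x 1 * he2
    · show x 2 = _ * algebraMap k L (u0 2) + _ * algebraMap k L (u1 2) + _ * algebraMap k L (u2 2)
      linear_combination -x 2 * he2

theorem aeval_hom' {L : Type} [Field L] [Algebra k L] {G : MvPolynomial (Fin 3) k} {d : ℕ}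
    (hG : G.IsHomogeneous d) (x : Fin 3 → L) (c : L) :
    aeval (fun i => c * x i) G = c ^ d * aeval x G := by
  rw [aeval_def, aeval_def, eval₂_eq', eval₂_eq', Finset.mul_sum]
  refine Finset.sum_congr rfl fun m hm => ?_
  have h1 : ∑ i, m i = d := by
    have := hG (mem_support_iff.1 hm)
    rw [Finsupp.weight_apply, Finsupp.sum_fintype _ _ (by simp)] at this
    simpa using this
  have h2 : ∏ i, (c * x i) ^ m i = c ^ d * ∏ i, x i ^ m i := by
    rw [← h1, ← Finset.prod_pow_eq_pow_sum, ← Finset.prod_mul_distrib]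
    exact Finset.prod_congr rfl fun i _ => mul_pow _ _ _
  rw [h2]
  ring

theorem aeval_gU {L : Type} [Field L] [Algebra k L] (G : MvPolynomial (Fin 3) k)
    (u0 u1 u2 : Fin 3 → k) (X Y : L) :
    aeval ![X, Y] (gU G u0 u1 u2) = aeval (pa u0 u1 u2 X Y) G := by
  unfold gU
  rw [← AlgHom.comp_apply, comp_aeval]
  refine congrArg (fun f : Fin 3 → L => aeval f G) (funext fun i => ?_)
  simp only [pa, map_add, map_mul, aeval_X, AlgHom.commutes]
  rfl

end Lin

/-! ### The place -/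

section Core

theorem core (hBRG : T_BRG) (hAFE : T_AFE) (hCRE : T_CRE) (hCEN : T_CEN)
    (hLTN : Pool.Agent.H3.OD.T_LTN) (k : Type) [Field k] [IsAlgClosed k] [CharZero k]
    (G : MvPolynomial (Fin 3) k) (d α : ℕ) (A : MvPolynomial (Fin 3) k) (b : A2 k)
    (hG : G.IsHomogeneous d) (hC : Conn G α A b) (u0 u1 u2 : Fin 3 → k) (hdt : dt u0 u1 u2 ≠ 0)
    (hu0 : u0 ≠ 0) (φ : HS k) (a : ℕ) (hB : Bas (aU A u0 u1 u2) (bU b u0 u1 u2) φ a)
    (hφ : ∀ (U : HS k) (μ : ℚ), 0 < μ → IsO U μ → IsO (aeval ![uu k, φ + U] (gU G u0 u1 u2)) μ)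
    (N : ℕ) (hN : 1 ≤ N) (hR : ∀ U : HS k, Near a U → (∃ n : ℕ, 0 < n ∧ Lat n U) →
      Sol (aU A u0 u1 u2) (bU b u0 u1 u2) (φ + U) → Lat N U ∧ ∀ μ : ℚ, IsO U μ → μ ≤ N)
    (K : Type) [Field K] [Algebra k K] [Algebra.EssFiniteType k K] (htr : Algebra.trdeg k K = 1)
    (D : Derivation k K K) (hD : D ≠ 0) (x : Fin 3 → K) (v : DV k K) (hx1 : ∃ j, x j = 1)
    (hP : Prim k x) (hG1 : aeval x G ≠ 0) (hA1 : aeval x A ≠ 0) (hE : CEq D A b x) (z : K)
    (hz : z ≠ 0) (hzs : ∀ i, ge v 1 (z * x i - algebraMap k K (u0 i))) (l0 X Y : K) (hl0 : l0 ≠ 0)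
    (hxl : ∀ i, x i = l0 * pa u0 u1 u2 X Y i) (hzl : v.ord (z * l0) = 0) (hX : 0 < v.ord X)
    (hY : ge v 1 Y) : ∃ (U : HS k) (μ : ℚ), IsO U μ ∧ (nord v x d G : ℚ) = μ * (v.ord X : ℚ) ∧
      (nord v x α A < nord v x d G → (a : ℚ) < μ) ∧ (ge v (v.ord X) Y → geO 1 U) ∧
      (Near a U → nord v x d G ≤ N * N) := by
  obtain ⟨n, hn⟩ : ∃ n : ℕ, v.ord X = n := ⟨(v.ord X).toNat, (Int.toNat_of_nonneg hX.le).symm⟩
  have hn0 : 0 < n := by rw [hn] at hX; exact_mod_cast hX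
  have hnQ : (0 : ℚ) < n := by exact_mod_cast hn0
  have hX0 : X ≠ 0 := by
    rintro rfl
    rw [v.ord_zero] at hX
    exact lt_irrefl _ hX
  have hDX : D X ≠ 0 := by
    intro h
    obtain ⟨c, hc⟩ := Pool.Agent.H27.LV.ker k K htr D hD X h
    rw [← hc, v.ord_base] at hX
    exact lt_irrefl _ hX
  obtain ⟨D1, hD1⟩ : ∃ D1 : Derivation k K K, D1 = (X / D X) • D := ⟨_, rfl⟩
  have hD1X : D1 X = X := by
    rw [hD1]
    show X / D X * D X = X
    exact div_mul_cancel₀ _ hDX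
  -- the equation in affine coordinates
  have hE1 : aeval ![X, Y] (aU A u0 u1 u2) * ((D1 (D1 Y) - D1 Y) / X ^ 2) +
      aeval ![X, Y, D1 Y / X] (bU b u0 u1 u2) = 0 := by
    have h1 := hCRE k K D α A b x 1 (X / D X) hC.hA hC.hb hC.inv
    simp only [one_mul, one_pow] at h1
    have h2 : aeval x A * dt x (fun i => D (x i)) (fun i => D (D (x i))) +
      aeval (Sum.elim x fun i => D (x i)) b = 0 := hE
    rw [h2, mul_zero, ← hD1, hAFE k K D1 α A b u0 u1 u2 x l0 X Y hC.hA hC.hb hC.inv hl0 hX0 hD1X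
      hxl] at h1
    exact (mul_eq_zero.1 h1).resolve_left
      (mul_ne_zero (pow_ne_zero _ hl0) (pow_ne_zero _ hX0))
  obtain ⟨Ph, hPu, hPl, hPo, hPD⟩ := hBRG k K htr v X n hn0 hn D1 hD1X
  have hP2 : ∀ P : MvPolynomial (Fin 2) k, Ph (aeval ![X, Y] P) = aeval ![uu k, Ph Y] P := by
    intro P
    rw [← AlgHom.comp_apply, comp_aeval]
    refine congrArg (fun f : Fin 2 → HS k => aeval f P) (funext fun i => ?_)
    fin_cases i
    · exact hPu
    · rfl
  have hP3 : ∀ (w : K) (P : MvPolynomial (Fin 3) k),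
      Ph (aeval ![X, Y, w] P) = aeval ![uu k, Ph Y, Ph w] P := by
    intro w P
    rw [← AlgHom.comp_apply, comp_aeval]
    refine congrArg (fun f : Fin 3 → HS k => aeval f P) (funext fun i => ?_)
    fin_cases i
    · exact hPu
    · rfl
    · rfl
  have hinv : ∀ y : HS k, y / uu k ^ 2 = sg (-2) 1 * y := by
    intro y
    have h1 : sg (-2) 1 * uu k ^ 2 = 1 := by
      rw [uu_pow, sg_mul_sg, one_mul, ← sg_zero_one]
      norm_num
    rw [div_eq_iff (fun h => by rw [h, mul_zero] at h1; exact zero_ne_one h1)]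
    linear_combination (-y) * h1
  have hinv1 : ∀ y : HS k, y / uu k = sg (-1) 1 * y := by
    intro y
    have h1 : sg (-1) 1 * uu k = 1 := by
      unfold uu
      rw [sg_mul_sg, one_mul, ← sg_zero_one]
      norm_num
    rw [div_eq_iff (fun h => by rw [h, mul_zero] at h1; exact zero_ne_one h1)]
    linear_combination (-y) * h1
  have hSol : Sol (aU A u0 u1 u2) (bU b u0 u1 u2) (Ph Y) := by
    have h1 := congrArg Ph hE1
    rw [map_zero, map_add, map_mul, hP2, hP3, map_div₀, map_div₀, map_pow, hPu, map_sub, hPD, hPD,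
      hinv, hinv1] at h1
    exact h1
  -- the orders of G and A
  have hval : ∀ (e : ℕ) (P : MvPolynomial (Fin 3) k), P.IsHomogeneous e → aeval x P ≠ 0 →
      aeval ![X, Y] (gU P u0 u1 u2) ≠ 0 ∧ nord v x e P = v.ord (aeval ![X, Y] (gU P u0 u1 u2)) := by
    intro e P hPe hPx
    have h1 : ∀ i, z * x i = (z * l0) * pa u0 u1 u2 X Y i := fun i => by rw [hxl i, mul_assoc]
    have h2 : aeval (fun i => z * x i) P = (z * l0) ^ e * aeval ![X, Y] (gU P u0 u1 u2) := by
      rw [aeval_gU, ← aeval_hom' hPe]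
      exact congrArg (fun f : Fin 3 → K => aeval f P) (funext h1)
    have h3 : aeval (fun i => z * x i) P ≠ 0 := by
      rw [aeval_hom' hPe]
      exact mul_ne_zero (pow_ne_zero _ hz) hPx
    have h4 : aeval ![X, Y] (gU P u0 u1 u2) ≠ 0 := fun h => h3 (by rw [h2, h, mul_zero])
    refine ⟨h4, ?_⟩
    have h5 := (((hCEN k K htr v x hx1).2 u0 hu0 z hz hzs).2 e P hPe hPx).1
    rw [h5, h2, v.ord_mul _ _ (pow_ne_zero _ (mul_ne_zero hz hl0)) h4, v.ord_pow, hzl, mul_zero,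
      zero_add]
  obtain ⟨hg0, hg1⟩ := hval d G hG hG1
  obtain ⟨ha0, ha1⟩ := hval α A hC.hA hA1
  obtain ⟨U, hU⟩ : ∃ U, U = Ph Y - φ := ⟨_, rfl⟩
  have hyU : Ph Y = φ + U := by rw [hU]; ring
  have hφ0 : geO 0 φ := geO_mono hB.pos zero_le_one
  have huu0 : geO 0 (uu k) := geO_mono geO_uu zero_le_one
  -- order of Y
  have hyr : ∀ r : ℤ, ge v r Y → geO ((r : ℚ) / n) (Ph Y) := by
    intro r hr
    by_cases h : Y = 0
    · rw [h, map_zero]
      exact geO_zero _
    · have h1 := (hPo Y h).2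
      refine geO_mono h1 ?_
      rw [div_le_div_iff_of_pos_right hnQ]
      exact_mod_cast hr.resolve_left h
  have hU1 : ∃ r : ℚ, 0 < r ∧ geO r U := by
    refine ⟨min 1 (1 / n), lt_min one_pos (by positivity), ?_⟩
    rw [hU]
    have h1 := hyr 1 hY
    rw [Int.cast_one] at h1
    exact geO_sub (geO_mono h1 (min_le_right _ _)) (geO_mono hB.pos (min_le_left _ _))
  obtain ⟨r0, hr0, hUr0⟩ := hU1
  have hU0 : geO 0 U := geO_mono hUr0 hr0.le
  -- G vanishes on the branch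
  have hgφ : aeval ![uu k, φ] (gU G u0 u1 u2) = 0 := by
    by_contra h
    obtain ⟨r, hr⟩ := exists_IsO h
    obtain ⟨μ, hμ⟩ : ∃ μ : ℚ, μ = max 1 (r + 1) := ⟨_, rfl⟩
    have hμ0 : 0 < μ := by rw [hμ]; exact lt_of_lt_of_le one_pos (le_max_left _ _)
    have hμr : r < μ := by rw [hμ]; exact lt_of_lt_of_le (lt_add_one r) (le_max_right _ _)
    have h1 : IsO (sg μ (1 : k)) μ := ⟨by rw [cf_sg, if_pos rfl]; exact one_ne_zero, geO_sg _ _⟩
    obtain ⟨-, -, R, hR0, hR1⟩ := tay (gU G u0 u1 u2) (uu k) φ (sg μ (1 : k)) huu0 hφ0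
      (geO_mono h1.2 hμ0.le)
    have h2 : geO μ (aeval ![uu k, φ] (gU G u0 u1 u2) -
        aeval ![uu k, φ + sg μ (1 : k)] (gU G u0 u1 u2)) := by
      have h3 := geO_neg (geO_mul h1.2 hR0)
      rw [add_zero, ← hR1, neg_sub] at h3
      exact h3
    have h4 := (hr.of_sub h2 hμr).1
    exact absurd (h4.unique (hφ _ μ hμ0 h1)) hμr.ne
  have hGy : IsO (aeval ![uu k, φ + U] (gU G u0 u1 u2)) ((nord v x d G : ℚ) / n) := by
    rw [← hyU, ← hP2, hg1]
    exact hPo _ hg0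
  have hUne : U ≠ 0 := by
    rintro h
    rw [h, add_zero, hgφ] at hGy
    exact hGy.ne_zero rfl
  obtain ⟨μ, hμ⟩ := exists_IsO hUne
  have hμ0 : 0 < μ := by
    by_contra h
    push Not at h
    exact hμ.1 (hUr0 μ (lt_of_le_of_lt h hr0))
  have hμ1 : μ = (nord v x d G : ℚ) / n := (hφ U μ hμ0 hμ).unique hGy
  have hμ2 : (nord v x d G : ℚ) = μ * n := by rw [hμ1, div_mul_cancel₀ _ hnQ.ne']
  refine ⟨U, μ, hμ, ?_, ?_, ?_, ?_⟩
  · rw [hn]
    exact_mod_cast hμ2
  · intro hlt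
    have h1 : IsO (aeval ![uu k, φ + U] (aU A u0 u1 u2)) ((nord v x α A : ℚ) / n) := by
      rw [← hyU, ← hP2]
      unfold aU
      rw [map_mul, aeval_C, map_mul]
      have h2 : IsO (Ph (algebraMap k K (dt u0 u1 u2))) 0 := by
        rw [AlgHom.commutes, algebraMap_HS]
        exact ⟨by rw [cf_sg, if_pos rfl]; simpa using hdt, geO_sg _ _⟩
      have h3 := hPo _ ha0
      rw [← ha1] at h3
      have h4 := h2.mul h3
      rw [zero_add] at h4
      exact h4
    obtain ⟨-, -, R, hR0, hR1⟩ := tay (aU A u0 u1 u2) (uu k) φ U huu0 hφ0 hU0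
    have h2 : geO μ (aeval ![uu k, φ + U] (aU A u0 u1 u2) - aeval ![uu k, φ] (aU A u0 u1 u2)) := by
      rw [hR1]
      have h3 := geO_mul hμ.2 hR0
      rwa [add_zero] at h3
    have h5 : (nord v x α A : ℚ) / n < μ := by
      rw [hμ1, div_lt_div_iff_of_pos_right hnQ]
      exact_mod_cast hlt
    have h6 := (h1.of_sub h2 h5).1
    have h7 := hB.ord.unique h6
    rw [h7]
    exact h5
  · intro h
    rw [hn] at h
    have h1 := hyr n h
    rw [Int.cast_natCast, div_self hnQ.ne'] at h1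
    rw [hU]
    exact geO_sub h1 hB.pos
  · intro hnear
    have hlatU : Lat n U := by
      rw [hU]
      exact lat_sub (hPl Y) (lat_one hB.lat)
    obtain ⟨h1, h2⟩ := hR U hnear ⟨n, hn0, hlatU⟩ (by rw [← hyU]; exact hSol)
    have h3 := h2 μ hμ
    obtain ⟨L, hL⟩ := hLTN k N hN
    have hφL : φ ∈ L := (hL _).2 (lat_one hB.lat)
    have hYL : Ph Y ∈ L := by
      rw [hyU]
      exact add_mem hφL ((hL _).2 h1)
    have hXL : Ph X ∈ L := by
      rw [hPu]
      exact (hL _).2 (lat_uu N)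
    have hpaL : ∀ i, Ph (pa u0 u1 u2 X Y i) ∈ L := by
      intro i
      unfold pa
      rw [map_add, map_add, map_mul, map_mul, AlgHom.commutes, AlgHom.commutes, AlgHom.commutes]
      exact add_mem (add_mem (L.algebraMap_mem _) (mul_mem hXL (L.algebraMap_mem _)))
        (mul_mem hYL (L.algebraMap_mem _))
    have hl0L : Ph l0 ∈ L := by
      obtain ⟨j, hj⟩ := hx1
      have h4 : l0 = (pa u0 u1 u2 X Y j)⁻¹ := by
        rw [hxl j] at hj
        exact eq_inv_of_mul_eq_one_left hj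
      rw [h4, map_inv₀]
      exact inv_mem (hpaL j)
    have hall : ∀ z : K, Ph z ∈ L := by
      intro z
      have h4 : IntermediateField.adjoin k (Set.range x) ≤ L.comap Ph := by
        rw [IntermediateField.adjoin_le_iff]
        rintro _ ⟨i, rfl⟩
        show Ph (x i) ∈ L
        rw [hxl i, map_mul]
        exact mul_mem hl0L (hpaL i)
      have h5 : IntermediateField.adjoin k (Set.range x) = ⊤ := hP
      rw [h5] at h4
      exact h4 IntermediateField.mem_top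
    have h4 := hPo v.unif v.unif_ne_zero
    rw [v.ord_unif] at h4
    obtain ⟨m, hm⟩ := (hL _).1 (hall v.unif) _ h4.1
    have h5 : (N : ℤ) = m * n := by
      have h6 : (N : ℚ) = m * n := by
        rw [← hm]
        field_simp
        push_cast
        ring
      exact_mod_cast h6
    have hdvd : (n : ℤ) ∣ (N : ℤ) := ⟨m, by rw [h5]; ring⟩
    have h7 : (n : ℤ) ≤ (N : ℤ) := Int.le_of_dvd (by exact_mod_cast hN) hdvd
    have h8 : (nord v x d G : ℚ) ≤ N * N := by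
      rw [hμ2]
      have h9 : (n : ℚ) ≤ N := by exact_mod_cast h7
      exact mul_le_mul h3 h9 hnQ.le (Nat.cast_nonneg N)
    exact_mod_cast h8

end Core

end Pool.Agent.H92.SM
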